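import Pool.Agent.TH464.PO.BaseFam3

set_option autoImplicit false

/-!
# Almost prime values of admissible sets of linear forms: consecutive gaps of prescribed exact
lengths, uniformly in the forms

Fix `k ≥ 2`, `A`, `θ > 0`, a number `s` of gaps, a size `x` and an accuracy `ε`. For every `r ≥
r0` and all large `X` the following holds uniformly over ALL admissible sets of `k` linear forms
`a i m + b i` with `1 ≤ b i < a i ≤ X ^ A`. Call `m` good if every `a i m + b i` has at most `(2 A
+ 1) r` prime factors, all larger than `X ^ (1 / r)`, let `V` be the sieve density of this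
condition, and for a finite set `B` let `V_B` be the sieve density of the condition that all `m +
t`, `t ∈ B`, satisfy it. In ALL intervals `(Z, Z + Y]` with `Y ≥ X ^ θ`, `Z + 2 Y ≤ X ^ A`, and
for ALL gap lengths `d_0, ..., d_(s-1) ≥ 1` with sum `L ≤ x / V`: the number of the good integers
in `(Z, Z + Y]` whose next `s` gaps are EXACTLY `d_0, ..., d_(s-1)` is `Y V_B e ^ (-L V)`, up to
`ε Y V_B`, where `B` is the set of the positions `0, d_0, d_0 + d_1, ..., L`.
-/

namespace Pool.Agent.Results.MP_746f10_nt.ExactGapsUniformForms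

open Finset Filter

/-- The set of the `k` linear forms `a i m + b i` is admissible in the sense of the problem, with
coefficients at most `B`. -/
structure Admissible {k : ℕ} (a b : Fin k → ℕ) (B : ℕ) : Prop where
  pos : ∀ i, 1 ≤ b i
  lt : ∀ i, b i < a i
  le : ∀ i, a i ≤ B
  distinct : ∀ i j, i ≠ j → a i ≠ a j ∨ b i ≠ b j
  noFixedPrime : ∀ p : ℕ, p.Prime → ∃ n : ℕ, ∀ i, ¬ p ∣ a i * n + b i

/-- `m` is good: every `a i m + b i` has at most `(2 A + 1) r` prime factors (with multiplicity), all larger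
than `X ^ (1 / r)`. -/
def Good {k : ℕ} (a b : Fin k → ℕ) (A r X m : ℕ) : Prop :=
  ∀ i, (a i * m + b i).primeFactorsList.length ≤ (2 * A + 1) * r ∧
    ∀ p : ℕ, p.Prime → p ∣ a i * m + b i → (X : ℝ) ^ (1 / (r : ℝ)) < (p : ℝ)

open Classical in
/-- The sieve density: the product over the primes `p ≤ X ^ (1 / r)` of `1 - ν(p) / p`, where `ν(p)` is the
number of the `m` mod `p` for which `p` divides one of the `a i m + b i`. -/
noncomputable def V {k : ℕ} (a b : Fin k → ℕ) (r X : ℕ) : ℝ :=
  ∏ p ∈ (Finset.range (⌊(X : ℝ) ^ (1 / (r : ℝ))⌋₊ + 1)).filter Nat.Prime,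
    (1 - (((Finset.range p).filter (fun m => ∃ i, p ∣ a i * m + b i)).card : ℝ) / p)

open Classical in
/-- The sieve density of the pattern `B`: the product over the primes `p ≤ X ^ (1 / r)` of `1 - ν(p) / p`,
where `ν(p)` is the number of the `m` mod `p` for which `p` divides one of the `a i (m + t) + b i`, `t ∈ B`. -/
noncomputable def VB {k : ℕ} (a b : Fin k → ℕ) (r X : ℕ) (B : Finset ℕ) : ℝ :=
  ∏ p ∈ (Finset.range (⌊(X : ℝ) ^ (1 / (r : ℝ))⌋₊ + 1)).filter Nat.Prime,
    (1 - (((Finset.range p).filter (fun m => ∃ t ∈ B, ∃ i, p ∣ a i * (m + t) + b i)).card : ℝ) / p)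

/-- The next good integer after `n`. -/
noncomputable def next {k : ℕ} (a b : Fin k → ℕ) (A r X : ℕ) (n : ℕ) : ℕ :=
  sInf {m | n < m ∧ Good a b A r X m}

/-- The `j`-th gap after `n`: the distance between the `j`-th and the `(j + 1)`-st good integer after `n`,
where the `0`-th is `n` itself. -/
noncomputable def gap {k : ℕ} (a b : Fin k → ℕ) (A r X : ℕ) (n j : ℕ) : ℕ :=
  (next a b A r X)^[j + 1] n - (next a b A r X)^[j] n

/-- The positions `d 0 + ... + d (i - 1)`, `i = 0, 1, ..., s`, of good integers with the consecutive gaps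
`d 0, ..., d (s - 1)`. -/
def pos {s : ℕ} (d : Fin s → ℕ) (i : ℕ) : ℕ :=
  ∑ k ∈ Finset.range i, if h : k < s then d ⟨k, h⟩ else 0

/-- The set of these `s + 1` positions. -/
def pattern {s : ℕ} (d : Fin s → ℕ) : Finset ℕ :=
  (Finset.range (s + 1)).image (pos d)

open Pool.Agent.TH464.PO

open Classical in
/-- **Consecutive gaps of prescribed exact lengths, uniformly in the forms.** -/
theorem result (k A : ℕ) (hk : 2 ≤ k) (θ : ℝ) (hθ : 0 < θ) (s : ℕ) (x ε : ℝ) (hε : 0 < ε) :
    ∃ r0 : ℕ, ∀ r : ℕ, r0 ≤ r → ∀ᶠ X : ℕ in atTop, ∀ a b : Fin k → ℕ, Admissible a b (X ^ A) →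
      ∀ Z Y : ℕ, (X : ℝ) ^ θ ≤ Y → Z + 2 * Y ≤ X ^ A →
      ∀ d : Fin s → ℕ, (∀ j, 1 ≤ d j) → pos d s * V a b r X ≤ x →
        |(((Finset.Ioc Z (Z + Y)).filter
            (fun m => Good a b A r X m ∧ ∀ j : Fin s, gap a b A r X m j = d j)).card : ℝ) -
          Y * VB a b r X (pattern d) * Real.exp (-(pos d s * V a b r X))| ≤
            ε * (Y * VB a b r X (pattern d)) := by
  obtain ⟨r0, h0⟩ := lf_exact k A (by omega) θ hθ s x ε hε
  refine ⟨max r0 1, ?_⟩
  intro r hr
  filter_upwards [h0 r ((le_max_left _ _).trans hr), eventually_ge_atTop 2] with X hX hX2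
  intro a b hab
  have hab' : F2.Adm a b (X ^ A) := ⟨hab.pos, hab.lt, hab.le, hab.distinct, hab.noFixedPrime⟩
  exact hX _ _ (F2.adm_LF hk hab' _) (Good a b A r X) (V a b r X) (VB a b r X) (X ^ A)
    (fun m hm => F2.sf_AFo A r X ((le_max_right _ _).trans hr) hX2 hab' m hm) (F2.forms_V _)
    (fun B => V_natB a b B _ (fun p m => Iff.rfl) _)

end Pool.Agent.Results.MP_746f10_nt.ExactGapsUniformForms
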