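import Pool.Agent.TH464.PO.Forms

set_option autoImplicit false

/-!
# Almost prime values of systems of linear forms: the gaps, uniformly in the coefficients

Fix `k ≥ 2`, `A`, `θ > 0` and an accuracy `ε`. For every `r ≥ r0` the following holds for
all large `X`, uniformly over ALL admissible sets of `k` linear forms `a i m + b i` with
`1 ≤ b i < a i ≤ X ^ A`. Call `m` good if every `a i m + b i` has at most `(2 A + 1) r` prime factors,
all larger than `X ^ (1 / r)`. In every interval `(Z, Z + Y]` of length `Y ≥ X ^ θ` below `X ^ A` the gaps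
between consecutive good integers are, in the scale `1 / V`, exponentially distributed up to `ε`,
uniformly in all gap lengths, and the distances to the `l`-th good predecessor are Gamma distributed.
-/

namespace Pool.Agent.Results.MP_746f10_nt.GapsUniformForms

open Finset Filter

/-- The set of the `k` linear forms `a i m + b i` is admissible in the sense of the problem, with
coefficients at most `B`. -/
structure Admissible {k : ℕ} (a b : Fin k → ℕ) (B : ℕ) : Prop where
  pos : ∀ i, 1 ≤ b i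
  lt : ∀ i, b i < a i
  le : ∀ i, a i ≤ B
  distinct : ∀ i j, i ≠ j → a i ≠ a j ∨ b i ≠ b j
  noFixedPrime : ∀ p : ℕ, p.Prime → ∃ n : ℕ, ∀ i, ¬ p ∣ a i * n + b i

/-- Every `a i m + b i` has at most `(2 A + 1) r` prime factors (with multiplicity), all larger than
`X ^ (1 / r)`. -/
def AlmostPrimes {k : ℕ} (a b : Fin k → ℕ) (A r X m : ℕ) : Prop :=
  ∀ i, (a i * m + b i).primeFactorsList.length ≤ (2 * A + 1) * r ∧
    ∀ p : ℕ, p.Prime → p ∣ a i * m + b i → (X : ℝ) ^ (1 / (r : ℝ)) < (p : ℝ)

open Classical in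
/-- The number of the good `m` in `(Z, Z + Y]` with fewer than `l` good integers in `[m - T, m)`, that is,
whose `l`-th good predecessor is at distance more than `T`. -/
noncomputable def Far {k : ℕ} (a b : Fin k → ℕ) (A r X Z Y l T : ℕ) : ℕ :=
  ((Finset.Ioc Z (Z + Y)).filter (fun m => AlmostPrimes a b A r X m ∧
    ((Finset.Ico (m - T) m).filter (fun j => AlmostPrimes a b A r X j)).card < l)).card

open Classical in
/-- The sieve density: the product over the primes `p ≤ X ^ (1 / r)` of `1 - ν(p) / p`, where `ν(p)` is the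
number of the `m` mod `p` for which `p` divides one of the `a i m + b i`. -/
noncomputable def V {k : ℕ} (a b : Fin k → ℕ) (r X : ℕ) : ℝ :=
  ∏ p ∈ (Finset.range (⌊(X : ℝ) ^ (1 / (r : ℝ))⌋₊ + 1)).filter Nat.Prime,
    (1 - (((Finset.range p).filter (fun m => ∃ i, p ∣ a i * m + b i)).card : ℝ) / p)

open Pool.Agent.TH464.PO Pool.Agent.W123.RU Pool.Agent.H373R2.T7 Pool.Agent.W123.RP

open Classical in
/-- **The gap laws for almost prime values of linear forms, uniformly in the forms.** -/
theorem result (k A : ℕ) (hk : 2 ≤ k) (θ : ℝ) (hθ : 0 < θ) (l0 : ℕ) (x ε : ℝ) (hε : 0 < ε) :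
    ∃ r0 : ℕ, ∀ r : ℕ, r0 ≤ r → ∀ᶠ X : ℕ in atTop, ∀ a b : Fin k → ℕ, Admissible a b (X ^ A) →
      ∀ Z Y : ℕ, (X : ℝ) ^ θ ≤ Y → Z + Y ≤ X ^ A → ∀ l T : ℕ, (l ≤ l0 ∨ T * V a b r X ≤ x) →
        |(Far a b A r X Z Y l T : ℝ) - Y * V a b r X *
          ∑ j ∈ Finset.range l, Real.exp (-(T * V a b r X)) * (T * V a b r X) ^ j / j.factorial| ≤
            ε * (Y * V a b r X) := by
  obtain ⟨r0, h0⟩ := lin k A (by omega) θ hθ l0 x ε hε
  refine ⟨max r0 1, ?_⟩
  intro r hr
  filter_upwards [h0 r ((le_max_left _ _).trans hr), eventually_ge_atTop 2] with X hX hX2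
  intro a b hab Z Y hXY hZ l T hT
  have hab' : Adm a b (X ^ A) := ⟨hab.pos, hab.lt, hab.le, hab.distinct, hab.noFixedPrime⟩
  have hV : Vq (QL (fun i => (a i : ℤ)) (fun i => (b i : ℤ))) ⌊(X : ℝ) ^ (1 / (r : ℝ))⌋₊ = V a b r X :=
    forms_V _
  have hmain := (hX _ _ (adm_LF hk hab' _) Z Y hXY).2 l T (by rw [hV]; exact hT)
  rw [hV] at hmain
  have hcount : Far a b A r X Z Y l T = Pk (Sf (QL (fun i => (a i : ℤ)) (fun i => (b i : ℤ)))
      ⌊(X : ℝ) ^ (1 / (r : ℝ))⌋₊) l T Z Y := by
    have hap : ∀ m : ℕ, m ≤ X ^ A → (AlmostPrimes a b A r X m ↔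
        Sf (QL (fun i => (a i : ℤ)) (fun i => (b i : ℤ))) ⌊(X : ℝ) ^ (1 / (r : ℝ))⌋₊ m) := fun m hm =>
      (sf_AF A r X ((le_max_right _ _).trans hr) hX2 hab' m hm).symm
    unfold Far Pk
    congr 1
    apply Finset.filter_congr
    intro m hm
    rw [mem_Ioc] at hm
    rw [hap m (by omega)]
    apply and_congr Iff.rfl
    have e : (Finset.Ico (m - T) m).filter (fun j => AlmostPrimes a b A r X j) =
        (Finset.Ico (m - T) m).filter (Sf (QL (fun i => (a i : ℤ)) (fun i => (b i : ℤ)))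
          ⌊(X : ℝ) ^ (1 / (r : ℝ))⌋₊) := by
      apply Finset.filter_congr
      intro j hj
      rw [mem_Ico] at hj
      exact hap j (by omega)
    rw [e]
  rw [hcount]
  exact hmain

end Pool.Agent.Results.MP_746f10_nt.GapsUniformForms
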