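import Pool.Agent.TH464.PO.Forms

set_option autoImplicit false

/-!
# Almost prime values of systems of linear forms: the Poisson law, uniformly in the coefficients

Fix `k ≥ 2`, `A`, `θ > 0`, a size `x` and an accuracy `ε`. For every `r ≥ r0` the following holds for
all large `X`, uniformly over ALL admissible sets of `k` linear forms `a i m + b i` with
`1 ≤ b i < a i ≤ X ^ A`. Call `m` good if every `a i m + b i` has at most `(2 A + 1) r` prime factors,
all larger than `X ^ (1 / r)`. In every interval `(Z, Z + Y]` of length `Y ≥ X ^ θ` below `X ^ A`, and for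
every window length `T` with `T V ≤ x`, the number of good `m` in `(n, n + T]` has the Poisson
distribution of mean `T V` up to `ε` in total variation, `V` the sieve density of the system.
-/

namespace Pool.Agent.Results.MP_746f10_nt.PoissonUniformForms

open Finset Filter

/-- The set of the `k` linear forms `a i m + b i` is admissible in the sense of the problem, with
coefficients at most `B`. -/
structure Admissible {k : ℕ} (a b : Fin k → ℕ) (B : ℕ) : Prop where
  pos : ∀ i, 1 ≤ b i
  lt : ∀ i, b i < a i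
  le : ∀ i, a i ≤ B
  distinct : ∀ i j, i ≠ j → a i ≠ a j ∨ b i ≠ b j
  noFixedPrime : ∀ p : ℕ, p.Prime → ∃ n : ℕ, ∀ i, ¬ p ∣ a i * n + b i

/-- Every `a i m + b i` has at most `(2 A + 1) r` prime factors (with multiplicity), all larger than
`X ^ (1 / r)`. -/
def AlmostPrimes {k : ℕ} (a b : Fin k → ℕ) (A r X m : ℕ) : Prop :=
  ∀ i, (a i * m + b i).primeFactorsList.length ≤ (2 * A + 1) * r ∧
    ∀ p : ℕ, p.Prime → p ∣ a i * m + b i → (X : ℝ) ^ (1 / (r : ℝ)) < (p : ℝ)

open Classical in
/-- The number of the good `m` in `(n, n + T]`. -/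
noncomputable def N {k : ℕ} (a b : Fin k → ℕ) (A r X T n : ℕ) : ℕ :=
  ((Finset.Ioc n (n + T)).filter (fun m => AlmostPrimes a b A r X m)).card

open Classical in
/-- The sieve density: the product over the primes `p ≤ X ^ (1 / r)` of `1 - ν(p) / p`, where `ν(p)` is the
number of the `m` mod `p` for which `p` divides one of the `a i m + b i`. -/
noncomputable def V {k : ℕ} (a b : Fin k → ℕ) (r X : ℕ) : ℝ :=
  ∏ p ∈ (Finset.range (⌊(X : ℝ) ^ (1 / (r : ℝ))⌋₊ + 1)).filter Nat.Prime,
    (1 - (((Finset.range p).filter (fun m => ∃ i, p ∣ a i * m + b i)).card : ℝ) / p)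

/-- The probability of `E` for the Poisson distribution of mean `x`. -/
noncomputable def Poi (x : ℝ) (E : Finset ℕ) : ℝ :=
  ∑ j ∈ E, Real.exp (-x) * x ^ j / j.factorial

open Pool.Agent.TH464.PO Pool.Agent.W123.RU Pool.Agent.H373R2.T7 Pool.Agent.W123.RP

open Classical in
/-- **The Poisson law for almost prime values of linear forms, uniformly in the forms.** -/
theorem result (k A : ℕ) (hk : 2 ≤ k) (θ : ℝ) (hθ : 0 < θ) (x ε : ℝ) (hε : 0 < ε) :
    ∃ r0 : ℕ, ∀ r : ℕ, r0 ≤ r → ∀ᶠ X : ℕ in atTop, ∀ a b : Fin k → ℕ, Admissible a b (X ^ A) →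
      ∀ Z Y T : ℕ, (X : ℝ) ^ θ ≤ Y → Z + Y + T ≤ X ^ A → T * V a b r X ≤ x → ∀ E : Finset ℕ,
        |(((Finset.Ioc Z (Z + Y)).filter (fun n => N a b A r X T n ∈ E)).card : ℝ) -
          Y * Poi (T * V a b r X) E| ≤ ε * Y := by
  obtain ⟨r0, h0⟩ := lin k A (by omega) θ hθ 0 x ε hε
  refine ⟨max r0 1, ?_⟩
  intro r hr
  filter_upwards [h0 r ((le_max_left _ _).trans hr), eventually_ge_atTop 2] with X hX hX2
  intro a b hab Z Y T hXY hZ hT E
  have hab' : Adm a b (X ^ A) := ⟨hab.pos, hab.lt, hab.le, hab.distinct, hab.noFixedPrime⟩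
  have hV : Vq (QL (fun i => (a i : ℤ)) (fun i => (b i : ℤ))) ⌊(X : ℝ) ^ (1 / (r : ℝ))⌋₊ = V a b r X :=
    forms_V _
  have hmain := (hX _ _ (adm_LF hk hab' _) Z Y hXY).1 T (by rw [hV]; exact hT) E
  rw [hV] at hmain
  have hcount : ((Finset.Ioc Z (Z + Y)).filter (fun n => N a b A r X T n ∈ E)).card =
      ((Finset.Ioc Z (Z + Y)).filter (fun n => Wc (Sf (QL (fun i => (a i : ℤ)) (fun i => (b i : ℤ)))
        ⌊(X : ℝ) ^ (1 / (r : ℝ))⌋₊) n T ∈ E)).card := by
    congr 1
    apply Finset.filter_congr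
    intro n hn
    rw [mem_Ioc] at hn
    have e : N a b A r X T n = Wc (Sf (QL (fun i => (a i : ℤ)) (fun i => (b i : ℤ)))
        ⌊(X : ℝ) ^ (1 / (r : ℝ))⌋₊) n T := by
      unfold N Wc
      congr 1
      apply Finset.filter_congr
      intro m hm
      rw [mem_Ioc] at hm
      exact (sf_AF A r X ((le_max_right _ _).trans hr) hX2 hab' m (by omega)).symm
    rw [e]
  rw [hcount]
  exact hmain

end Pool.Agent.Results.MP_746f10_nt.PoissonUniformForms
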