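import Pool.Agent.TH415.UL.Main

set_option autoImplicit false

/-!
The uniform prime k-tuplets conjecture for a positive proportion of all admissible sets with given large
leading coefficients `a 1, ..., a k`, equal or not and possibly of very different sizes: the variable `n` may
be restricted to any dense subset `T` of a short interval, and the number of `n ∈ T` at which all the forms
are prime has the expected order of magnitude.
-/

namespace Pool.Agent.Results.MP_746f10_nt.UnequalLeadingCoefficients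
open Finset

/-- the set of linear forms `a i * x + b i` is admissible in the sense of the problem -/
def Admissible {k : ℕ} (a b : Fin k → ℕ) : Prop :=
  (∀ i, 1 ≤ b i ∧ b i < a i) ∧ ∀ p : ℕ, p.Prime → ∃ n : ℤ, ∀ i, ¬ (p : ℤ) ∣ a i * n + b i

open Classical in
theorem result : ∃ δ : ℝ, 0 < δ ∧ δ < 1 ∧ ∀ k : ℕ, ∀ ρ : ℝ, 0 < ρ → ∃ κ : ℝ, 0 < κ ∧ ∃ C : ℝ, ∃ a₀ : ℕ,
    ∀ a : Fin k → ℕ, (∀ i, a₀ ≤ a i) → ∀ y N : ℕ,
    C * ∏ i, ((a i).totient * Real.log (a i) / a i) ≤ N →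
    (∀ i, ((y + N : ℕ) : ℝ) ≤ (a i : ℝ) ^ δ) →
    ∀ T ⊆ Ioc y (y + N), ρ * N ≤ (#T : ℝ) →
    κ * ∏ i, ((a i).totient : ℝ) ≤
      #{b ∈ Fintype.piFinset (fun i => Ico 1 (a i)) |
        Function.Injective (fun i => (a i, b i)) ∧ Admissible a b ∧
        κ * #T * ∏ i, ((a i : ℝ) / ((a i).totient * Real.log (a i))) ≤
          #{n ∈ T | ∀ i, (a i * n + b i).Prime} ∧
        κ * #{n ∈ T | ∀ i, (a i * n + b i).Prime} ≤
          #T * ∏ i, ((a i : ℝ) / ((a i).totient * Real.log (a i)))} := by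
  obtain ⟨δ, hδ, hδ1, h⟩ := TH415.UL.main
  refine ⟨δ, hδ, hδ1, fun k ρ hρ => ?_⟩
  obtain ⟨κ, hκ, C, a₀, h⟩ := h k ρ hρ
  refine ⟨κ, hκ, C, a₀, ?_⟩
  intro a ha y N hN hy T hT hTc
  refine (h a ha y N hN hy T hT hTc).trans ?_
  norm_cast
  apply card_le_card
  intro b hb
  rw [mem_filter, TH415.UL.Om, Fintype.mem_piFinset] at hb
  obtain ⟨hb0, hinj, hk, h1, h2⟩ := hb
  have hb' : ∀ i, 1 ≤ b i ∧ b i < a i := fun i => by
    have := hb0 i
    unfold Pool.Agent.H262R2.UK.BB at this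
    rw [mem_filter, mem_Ico] at this
    exact this.1
  have hR : TH415.UL.RT a T b = #{n ∈ T | ∀ i, (a i * n + b i).Prime} := by
    unfold TH415.UL.RT
    congr 1
  rw [hR] at h1 h2
  rw [mem_filter, Fintype.mem_piFinset]
  refine ⟨fun i => mem_Ico.2 (hb' i), hinj, ⟨hb', fun p hp => ?_⟩, h1, h2⟩
  exact TH415.UL.adm a b T (fun i => by have := hb' i; omega) hk p hp

end Pool.Agent.Results.MP_746f10_nt.UnequalLeadingCoefficients
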